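import Pool.Agent.Helper72.LGP.Val
import Pool.Agent.Helper72.LGS.Count

/-!
# Counting the values, general form
-/

set_option autoImplicit false

namespace Pool.Agent.Helper72.LGP

open Subgroup Finset Pool.Agent.Helper72.LG Pool.Agent.Helper72.LGS

/-- the possible values -/
def VSG (M Kb R : ℕ) (S : Finset ℕ) : Set ℕ :=
  {v | ∃ (X : Type) (_ : Group X) (_ : Finite X) (K : ℕ → Subgroup X) (m : Fin R → ℕ × Subgroup X)
    (L : Subgroup X), Nat.card X ≤ Kb ∧ Ser M X ∧ (∀ i, (m i).1 ≤ Kb) ∧ v = VG X S K m L}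

theorem VSG_bound {M Kb TB : ℕ} (R : ℕ) (hT : Types M Kb TB) (S : Finset ℕ) :
    ∃ A : Finset ℕ, A.card ≤ TB * ((Kb ^ Nat.log 2 Kb) ^ (S.card + 1) *
      ((Kb + 1) * Kb ^ Nat.log 2 Kb) ^ R) ∧ VSG M Kb R S ⊆ A := by
  classical
  obtain ⟨T, hTfin, code, hTB, hcode⟩ := hT
  have hc : ∀ c : T, ∃ A : Finset ℕ, A.card ≤ (Kb ^ Nat.log 2 Kb) ^ (S.card + 1) *
      ((Kb + 1) * Kb ^ Nat.log 2 Kb) ^ R ∧
      ∀ (X : Type) (iX : Group X) (_ : Finite X) (K : ℕ → Subgroup X) (m : Fin R → ℕ × Subgroup X)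
        (L : Subgroup X), Nat.card X ≤ Kb → Ser M X → (∀ i, (m i).1 ≤ Kb) → code X iX = c →
          VG X S K m L ∈ A := by
    intro c
    by_cases h : ∃ (X : Type) (iX : Group X), Finite X ∧ Nat.card X ≤ Kb ∧ Ser M X ∧ code X iX = c
    · obtain ⟨X₀, iX₀, hf₀, hk₀, hs₀, hc₀⟩ := h
      have hFt : Fintype (((S → Subgroup X₀) × Subgroup X₀) × (Fin R → Fin (Kb + 1) × Subgroup X₀)) :=
        Fintype.ofFinite _
      refine ⟨univ.image (fun f : ((S → Subgroup X₀) × Subgroup X₀) ×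
        (Fin R → Fin (Kb + 1) × Subgroup X₀) =>
        VG X₀ S (fun p => if h : p ∈ S then f.1.1 ⟨p, h⟩ else ⊥)
          (fun i => (((f.2 i).1 : ℕ), (f.2 i).2)) f.1.2), ?_, ?_⟩
      · refine card_image_le.trans ?_
        rw [card_univ, ← Nat.card_eq_fintype_card, Nat.card_prod, Nat.card_prod, Nat.card_fun,
          Nat.card_fun, Nat.card_prod, pow_succ]
        have h1 := card_sub_le hk₀
        refine Nat.mul_le_mul (Nat.mul_le_mul ?_ h1) ?_
        · rw [Nat.card_eq_fintype_card (α := S), Fintype.card_coe]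
          exact Nat.pow_le_pow_left h1 _
        · rw [Nat.card_eq_fintype_card (α := Fin R), Fintype.card_fin,
            Nat.card_eq_fintype_card (α := Fin (Kb + 1)), Fintype.card_fin]
          exact Nat.pow_le_pow_left (Nat.mul_le_mul_left _ h1) _
      · intro X iX hf K m L hk hs hm hcX
        obtain ⟨φ⟩ := hcode X X₀ iX iX₀ hf hf₀ hk hk₀ hs hs₀ (hcX.trans hc₀.symm)
        rw [mem_image]
        refine ⟨((fun p => (K p).map φ.toMonoidHom, L.map φ.toMonoidHom),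
          fun i => (⟨(m i).1, Nat.lt_succ_of_le (hm i)⟩, (m i).2.map φ.toMonoidHom)), mem_univ _, ?_⟩
        rw [VG_congr φ S K m L]
        refine VG_restrict S _ _ _ _ fun p hp => ?_
        simp only [dif_pos hp]
    · refine ⟨∅, Nat.zero_le _, fun X iX hf K m L hk hs _ hcX => ?_⟩
      exact absurd ⟨X, iX, hf, hk, hs, hcX⟩ h
  choose A hA1 hA2 using hc
  have hFt : Fintype T := Fintype.ofFinite T
  refine ⟨univ.biUnion A, ?_, ?_⟩
  · refine card_biUnion_le.trans ?_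
    calc ∑ c : T, (A c).card ≤ ∑ _c : T, (Kb ^ Nat.log 2 Kb) ^ (S.card + 1) *
          ((Kb + 1) * Kb ^ Nat.log 2 Kb) ^ R :=
          sum_le_sum fun c _ => hA1 c
      _ = Nat.card T * ((Kb ^ Nat.log 2 Kb) ^ (S.card + 1) *
          ((Kb + 1) * Kb ^ Nat.log 2 Kb) ^ R) := by
          rw [sum_const, card_univ, smul_eq_mul, Nat.card_eq_fintype_card]
      _ ≤ _ := Nat.mul_le_mul_right _ hTB
  · rintro v ⟨X, iX, hf, K, m, L, hk, hs, hm, rfl⟩
    rw [mem_coe, mem_biUnion]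
    exact ⟨code X iX, mem_univ _, hA2 _ X iX hf K m L hk hs hm rfl⟩

/-- the number of products of a cofactor and a prime divisor of a value -/
theorem count_valuesG {M Kb TB : ℕ} (R : ℕ) (hT : Types M Kb TB) {Gd Ms : Finset ℕ}
    {Sf : ℕ → Finset ℕ} {W Vmax : ℕ} (hKb : 1 ≤ Kb)
    (h : ∀ n ∈ Gd, ∃ m ∈ Ms, ∃ q, n = m * q ∧ q.Prime ∧ ∃ v ∈ VSG M Kb R (Sf m),
      v ≠ 0 ∧ q ∣ v ∧ v ≤ Vmax) (hS : ∀ m ∈ Ms, (Sf m).card ≤ W) :
    Gd.card ≤ Ms.card * (TB * ((Kb ^ Nat.log 2 Kb) ^ (W + 1) *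
      ((Kb + 1) * Kb ^ Nat.log 2 Kb) ^ R) * Nat.log 2 Vmax) := by
  classical
  have hA : ∀ m : ℕ, ∃ A : Finset ℕ, A.card ≤ TB * ((Kb ^ Nat.log 2 Kb) ^ ((Sf m).card + 1) *
      ((Kb + 1) * Kb ^ Nat.log 2 Kb) ^ R) ∧
    VSG M Kb R (Sf m) ⊆ A := fun m => VSG_bound R hT (Sf m)
  choose A hA1 hA2 using hA
  have hsub : Gd ⊆ Ms.biUnion (fun m => ((A m).filter (fun v => v ≠ 0 ∧ v ≤ Vmax)).biUnion
      (fun v => v.primeFactors.image (fun q => m * q))) := by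
    intro n hn
    obtain ⟨m, hm, q, hnq, hq, v, hv, hv0, hqv, hvV⟩ := h n hn
    rw [mem_biUnion]
    refine ⟨m, hm, ?_⟩
    rw [mem_biUnion]
    refine ⟨v, mem_filter.2 ⟨hA2 m hv, hv0, hvV⟩, ?_⟩
    rw [mem_image]
    exact ⟨q, Nat.mem_primeFactors.2 ⟨hq, hqv, hv0⟩, hnq.symm⟩
  refine (card_le_card hsub).trans (card_biUnion_le.trans ?_)
  rw [← smul_eq_mul]
  refine sum_le_card_nsmul _ _ _ fun m hm => ?_
  refine card_biUnion_le.trans ?_
  calc ∑ v ∈ (A m).filter (fun v => v ≠ 0 ∧ v ≤ Vmax), (v.primeFactors.image (fun q => m * q)).card ≤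
      ∑ _v ∈ (A m).filter (fun v => v ≠ 0 ∧ v ≤ Vmax), Nat.log 2 Vmax := by
        refine sum_le_sum fun v hv => ?_
        rw [mem_filter] at hv
        refine card_image_le.trans ((_root_.LG.card_primeFactors_le hv.2.1).trans ?_)
        exact Nat.log_mono_right hv.2.2
    _ = ((A m).filter (fun v => v ≠ 0 ∧ v ≤ Vmax)).card * Nat.log 2 Vmax := by
        rw [sum_const, smul_eq_mul]
    _ ≤ (TB * ((Kb ^ Nat.log 2 Kb) ^ (W + 1) * ((Kb + 1) * Kb ^ Nat.log 2 Kb) ^ R)) *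
        Nat.log 2 Vmax := by
        refine Nat.mul_le_mul_right _ ?_
        refine (card_le_card (filter_subset _ _)).trans ((hA1 m).trans (Nat.mul_le_mul_left _
          (Nat.mul_le_mul_right _ ?_)))
        exact Nat.pow_le_pow_right (Nat.one_le_pow _ _ hKb) (by have := hS m hm; omega)

end Pool.Agent.Helper72.LGP
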