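import Pool.Agent.Helper72.LGP.Typ
import Pool.Agent.Helper72.LGS.Main

/-!
# The exceptional set, general form
-/

set_option autoImplicit false

namespace Pool.Agent.Helper72.LGP

open Subgroup Finset Pool.Agent.Helper72.LG Pool.Agent.Helper72.LGS

lemma sizeG {s : ℕ} (hs : 182 ≤ s) :
    TBf s * ((KB s ^ Nat.log 2 (KB s)) ^ (2 * s + 1) *
      ((KB s + 1) * KB s ^ Nat.log 2 (KB s)) ^ Nat.log 2 (KB s)) * 2 ^ s * 2 ^ s ≤ 2 ^ (s ^ 10) := by
  have hs1 : 1 ≤ s := by omega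
  have h2s : s ≤ 2 ^ s := Nat.lt_two_pow_self.le
  have hss : s ≤ s ^ 2 := by nlinarith
  have e1 : TBf s ≤ 2 ^ (32768 * s ^ 8) := TBf_le hs1
  have e2 : (KB s ^ Nat.log 2 (KB s)) ^ (2 * s + 1) ≤ 2 ^ (108 * s ^ 5) := KBpow_le hs1
  have e3 : ((KB s + 1) * KB s ^ Nat.log 2 (KB s)) ^ Nat.log 2 (KB s) ≤ 2 ^ (258 * s ^ 6) := by
    rw [log_KB]
    unfold KB
    have h1 : 2 ^ (2 * s + 4 * s ^ 2) + 1 ≤ 2 ^ (2 * s + 4 * s ^ 2 + 1) := by
      generalize 2 * s + 4 * s ^ 2 = a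
      have h2 := Nat.one_le_two_pow (n := a)
      have h3 : 2 ^ (a + 1) = 2 ^ a + 2 ^ a := by ring
      omega
    calc ((2 ^ (2 * s + 4 * s ^ 2) + 1) * (2 ^ (2 * s + 4 * s ^ 2)) ^ (2 * s + 4 * s ^ 2)) ^
          (2 * s + 4 * s ^ 2) ≤
        (2 ^ (2 * s + 4 * s ^ 2 + 1) * (2 ^ (2 * s + 4 * s ^ 2)) ^ (2 * s + 4 * s ^ 2)) ^
          (2 * s + 4 * s ^ 2) := Nat.pow_le_pow_left (Nat.mul_le_mul_right _ h1) _
      _ = 2 ^ ((2 * s + 4 * s ^ 2 + 1 + (2 * s + 4 * s ^ 2) * (2 * s + 4 * s ^ 2)) *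
          (2 * s + 4 * s ^ 2)) := by
          rw [← pow_mul, ← pow_add, ← pow_mul]
      _ ≤ 2 ^ (258 * s ^ 6) := by
          refine Nat.pow_le_pow_right (by norm_num) ?_
          have b1 : 2 * s + 4 * s ^ 2 ≤ 6 * s ^ 2 := by nlinarith
          have b2 : 2 * s + 4 * s ^ 2 + 1 ≤ 7 * s ^ 4 := by
            have : s ^ 2 ≤ s ^ 4 := Nat.pow_le_pow_right hs1 (by norm_num)
            nlinarith
          calc (2 * s + 4 * s ^ 2 + 1 + (2 * s + 4 * s ^ 2) * (2 * s + 4 * s ^ 2)) *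
              (2 * s + 4 * s ^ 2) ≤ (7 * s ^ 4 + (6 * s ^ 2) * (6 * s ^ 2)) * (6 * s ^ 2) :=
                Nat.mul_le_mul (Nat.add_le_add b2 (Nat.mul_le_mul b1 b1)) b1
            _ = 258 * s ^ 6 := by ring
  calc TBf s * ((KB s ^ Nat.log 2 (KB s)) ^ (2 * s + 1) *
      ((KB s + 1) * KB s ^ Nat.log 2 (KB s)) ^ Nat.log 2 (KB s)) * 2 ^ s * 2 ^ s ≤
      2 ^ (32768 * s ^ 8) * (2 ^ (108 * s ^ 5) * 2 ^ (258 * s ^ 6)) * 2 ^ s * 2 ^ s :=
        Nat.mul_le_mul_right _ (Nat.mul_le_mul_right _ (Nat.mul_le_mul e1 (Nat.mul_le_mul e2 e3)))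
    _ = 2 ^ (32768 * s ^ 8 + (108 * s ^ 5 + 258 * s ^ 6) + s + s) := by
        rw [← pow_add, ← pow_add, ← pow_add, ← pow_add]
    _ ≤ 2 ^ (s ^ 10) := by
        refine Nat.pow_le_pow_right (by norm_num) ?_
        have a1 : s ^ 5 ≤ s ^ 8 := Nat.pow_le_pow_right hs1 (by norm_num)
        have a2 : s ≤ s ^ 8 := by
          calc s = s ^ 1 := (pow_one s).symm
            _ ≤ s ^ 8 := Nat.pow_le_pow_right hs1 (by norm_num)
        have a4 : 182 * s ^ 6 ≤ s ^ 8 := by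
          have : 182 ≤ s ^ 2 := by nlinarith
          calc 182 * s ^ 6 ≤ s ^ 2 * s ^ 6 := Nat.mul_le_mul_right _ this
            _ = s ^ 8 := by ring
        have a3 : 32880 ≤ s ^ 2 := by nlinarith
        calc 32768 * s ^ 8 + (108 * s ^ 5 + 258 * s ^ 6) + s + s ≤
            32768 * s ^ 8 + (108 * s ^ 8 + 2 * s ^ 8) + s ^ 8 + s ^ 8 := by
              have : 258 * s ^ 6 ≤ 2 * s ^ 8 := by omega
              gcongr
          _ = 32880 * s ^ 8 := by ring
          _ ≤ s ^ 2 * s ^ 8 := Nat.mul_le_mul_right _ a3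
          _ = s ^ 10 := by ring

/-- all but `4 N / 2 ^ s` numbers are typical -/
theorem main_typG (D : ℕ) : ∃ s₀ : ℕ, 1 ≤ s₀ ∧ ∀ s, s₀ ≤ s → Types s (KB s) (TBf s) →
    ∀ N : ℕ, 1 ≤ N → N < 2 ^ ((s + 1) ^ D) → ∀ A : Finset ℕ,
      (∀ n ∈ A, n ∈ Ioc 0 N ∧ ∃ (G : Type) (_ : Group G) (_ : Finite G), Nat.card G = n ∧
        (∃ T : Finset (Subgroup G), (∀ M ∈ T, NMin M) ∧
          ∀ (E : Subgroup G) (_ : E.Normal), (∀ M ∈ T, M ≤ E) → Ser s (G ⧸ E)) ∧
        2 ^ (s ^ 12) < Nat.gcd n (∑ H ∈ nsg G, Nat.card H)) →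
      A.card * 2 ^ s ≤ 4 * N := by
  classical
  obtain ⟨s₁, hs₁⟩ := poly_le (2 * D + 2)
  refine ⟨max s₁ 182, le_trans (by norm_num) (le_max_right _ _), fun s hs hT N hN hNs A hA => ?_⟩
  have hss₁ : s₁ ≤ s := (le_max_left _ _).trans hs
  have hs182 : 182 ≤ s := (le_max_right _ _).trans hs
  have hs1 : 1 ≤ s := by omega
  have hpoly := hs₁ s hss₁
  set Λ := (s + 1) ^ D with hΛ
  have hΛ1 : 1 ≤ Λ := Nat.one_le_pow _ _ (Nat.succ_pos s)
  have hΛ2 : 2 * Λ ^ 2 ≤ 2 ^ s := by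
    calc 2 * Λ ^ 2 ≤ (s + 1) ^ 2 * ((s + 1) ^ D) ^ 2 := by
          refine Nat.mul_le_mul_right _ ?_
          nlinarith
      _ = (s + 1) ^ (2 * D + 2) := by ring
      _ ≤ 2 ^ s := hpoly
  have hlog : 1 + Real.log N ≤ (2 : ℝ) ^ s := by
    have h1 : Real.log N ≤ (Λ : ℝ) * Real.log 2 := by
      rw [← Real.log_pow]
      exact Real.log_le_log (by exact_mod_cast hN) (by exact_mod_cast hNs.le)
    have h2 : Real.log 2 ≤ 1 := by linarith [Real.log_two_lt_d9]
    have h3 : (Λ : ℝ) * Real.log 2 ≤ Λ * 1 := mul_le_mul_of_nonneg_left h2 (Nat.cast_nonneg _)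
    have h4 : ((1 + Λ : ℕ) : ℝ) ≤ ((2 ^ s : ℕ) : ℝ) := by
      have : 1 + Λ ≤ 2 ^ s := by
        refine le_trans ?_ hΛ2
        nlinarith
      exact_mod_cast this
    push_cast at h4
    linarith
  have hNR : (0 : ℝ) ≤ N := Nat.cast_nonneg _
  set B := 2 ^ s with hB
  set z := 2 ^ (2 * s) with hz
  set y := 2 ^ (s ^ 10) with hy
  have hB1 : 1 ≤ B := Nat.one_le_two_pow
  have hz1 : 1 ≤ z := Nat.one_le_two_pow
  have hBz : B ≤ z := Nat.pow_le_pow_right (by norm_num) (by omega)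
  have hzy : z ≤ y := by
    refine Nat.pow_le_pow_right (by norm_num) ?_
    calc 2 * s ≤ s * s := Nat.mul_le_mul_right _ (by omega)
      _ = s ^ 2 := by ring
      _ ≤ s ^ 10 := Nat.pow_le_pow_right hs1 (by norm_num)
  set A₂ := A.filter (fun n => ∃ b, B < b ∧ b ^ 2 ∣ n) with hA₂
  set A₃ := A.filter (fun n => ∃ p, z < p ∧ p.Prime ∧ p ∣ n ∧
    ∃ c, c ∣ n ∧ c ≡ 1 [MOD p] ∧ c ≠ 1) with hA₃
  set A₅ := A.filter (fun n => 2 * s < n.primeFactors.card) with hA₅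
  set A₆ := A \ (A₂ ∪ A₃ ∪ A₅) with hA₆
  have hcov : A.card ≤ A₂.card + A₃.card + A₅.card + A₆.card := by
    have h1 : A ⊆ (A₂ ∪ A₃ ∪ A₅) ∪ A₆ := by
      intro n hn
      by_cases h : n ∈ A₂ ∪ A₃ ∪ A₅
      · exact mem_union_left _ h
      · exact mem_union_right _ (mem_sdiff.2 ⟨hn, h⟩)
    refine (card_le_card h1).trans ?_
    have u1 := card_union_le (A₂ ∪ A₃ ∪ A₅) A₆
    have u2 := card_union_le (A₂ ∪ A₃) A₅
    have u3 := card_union_le A₂ A₃
    omega
  have b2 : A₂.card * 2 ^ s ≤ N := by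
    have := bad2 N B hB1 A₂ (fun n hn => ⟨(hA n (mem_filter.1 hn).1).1, (mem_filter.1 hn).2⟩)
    exact_mod_cast this
  have b3 : A₃.card * 2 ^ s ≤ N := by
    have h1 := bad3 N z hz1 A₃ (fun n hn => ⟨(hA n (mem_filter.1 hn).1).1, (mem_filter.1 hn).2⟩)
    have h2 : (A₃.card : ℝ) * (2 : ℝ) ^ s * (2 : ℝ) ^ s ≤ N * (2 : ℝ) ^ s := by
      calc (A₃.card : ℝ) * (2 : ℝ) ^ s * (2 : ℝ) ^ s = (A₃.card : ℝ) * (z : ℝ) := by
            rw [hz]
            push_cast
            ring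
        _ ≤ N * (1 + Real.log N) := h1
        _ ≤ N * (2 : ℝ) ^ s := mul_le_mul_of_nonneg_left hlog hNR
    have h3 := le_of_mul_le_mul_right h2 (by positivity)
    exact_mod_cast h3
  have b5 : A₅.card * 2 ^ s ≤ N := by
    have h1 := bad5 N (2 * s) A₅ (fun n hn => ⟨(hA n (mem_filter.1 hn).1).1, (mem_filter.1 hn).2⟩)
    have h2 : (A₅.card : ℝ) * (2 : ℝ) ^ s * (2 : ℝ) ^ s ≤ N * (2 : ℝ) ^ s := by
      calc (A₅.card : ℝ) * (2 : ℝ) ^ s * (2 : ℝ) ^ s = (A₅.card : ℝ) * (2 : ℝ) ^ (2 * s) := by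
            ring
        _ ≤ N * (1 + Real.log N) := h1
        _ ≤ N * (2 : ℝ) ^ s := mul_le_mul_of_nonneg_left hlog hNR
    have h3 := le_of_mul_le_mul_right h2 (by positivity)
    exact_mod_cast h3
  have b6 : A₆.card * 2 ^ s ≤ N := by
    set Vmax := N ^ Nat.log 2 N * N with hVmax
    have hlogV : Nat.log 2 Vmax ≤ 2 ^ s := by
      have hN0 : N ≠ 0 := by omega
      have h1 : Nat.log 2 N ≤ Λ := by
        have := Nat.log_lt_of_lt_pow hN0 hNs
        omega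
      have h2 : Vmax ≤ 2 ^ (Λ ^ 2 + Λ) := by
        calc Vmax ≤ (2 ^ Λ) ^ Λ * 2 ^ Λ := by
              refine Nat.mul_le_mul ?_ hNs.le
              exact (Nat.pow_le_pow_left hNs.le _).trans (Nat.pow_le_pow_right (by positivity) h1)
          _ = 2 ^ (Λ ^ 2 + Λ) := by
              rw [← pow_mul, ← pow_add]
              congr 1
              ring
      calc Nat.log 2 Vmax ≤ Nat.log 2 (2 ^ (Λ ^ 2 + Λ)) := Nat.log_mono_right h2
        _ = Λ ^ 2 + Λ := Nat.log_pow (by norm_num) _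
        _ ≤ 2 * Λ ^ 2 := by nlinarith
        _ ≤ 2 ^ s := hΛ2
    set Ms := (Ioc 0 (N / y)).filter (fun m => (Sz z m).card ≤ 2 * s) with hMs
    have hcount := count_valuesG (M := s) (Kb := KB s) (TB := TBf s) (Nat.log 2 (KB s)) hT (Gd := A₆) (Ms := Ms)
      (Sf := Sz z) (W := 2 * s) (Vmax := Vmax) Nat.one_le_two_pow (by
        intro n hn
        rw [hA₆, mem_sdiff] at hn
        obtain ⟨hnA, hnn⟩ := hn
        simp only [mem_union, not_or] at hnn
        obtain ⟨⟨n2, n3⟩, n5⟩ := hnn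
        obtain ⟨hnN, G, iG, iF, hG, ⟨T, hTm, hquot⟩, hgcd⟩ := hA n hnA
        rw [mem_Ioc] at hnN
        have hn0 : n ≠ 0 := by omega
        have hsqB : ∀ b, B < b → ¬ b ^ 2 ∣ n := fun b hb hbn => n2 (mem_filter.2 ⟨hnA, b, hb, hbn⟩)
        have hsq : ∀ p, z < p → p.Prime → ¬ p ^ 2 ∣ n := fun p hp _ => hsqB p (lt_of_le_of_lt hBz hp)
        have hdiv : ∀ p, z < p → p.Prime → p ∣ n → ∀ c, c ∣ n → c ≡ 1 [MOD p] → c = 1 := by
          intro p hp hpp hpn c hc hc1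
          by_contra h
          exact n3 (mem_filter.2 ⟨hnA, p, hp, hpp, hpn, c, hc, hc1, h⟩)
        have homega : n.primeFactors.card ≤ 2 * s := by
          by_contra h
          exact n5 (mem_filter.2 ⟨hnA, not_le.1 h⟩)
        obtain ⟨q, hqp, hyq, hqn, hqσ⟩ : ∃ q, q.Prime ∧ y < q ∧ q ∣ n ∧ q ∣ ∑ H ∈ nsg G, Nat.card H := by
          by_contra hcon
          push Not at hcon
          set g := Nat.gcd n (∑ H ∈ nsg G, Nat.card H) with hg
          have hgn : g ∣ n := Nat.gcd_dvd_left _ _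
          have hgσ : g ∣ ∑ H ∈ nsg G, Nat.card H := Nat.gcd_dvd_right _ _
          have hg2 : 2 ≤ g := by
            have : 1 ≤ 2 ^ (s ^ 12) := Nat.one_le_two_pow
            omega
          have h1 : g ≤ B ^ 2 * pm g ^ (2 * s) := by
            refine le_pm_pow hg2 (fun b hb hbg => hsqB b hb (hbg.trans hgn)) ?_
            exact (card_le_card (Nat.primeFactors_mono hgn hn0)).trans homega
          have h2 : pm g ≤ y := by
            have h3 := pm_mem hg2
            rw [Nat.mem_primeFactors] at h3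
            by_contra h4
            push Not at h4
            exact hcon (pm g) h3.1 h4 (h3.2.1.trans hgn) (h3.2.1.trans hgσ)
          have h3 : g ≤ 2 ^ (s ^ 12) := by
            calc g ≤ B ^ 2 * y ^ (2 * s) := h1.trans (Nat.mul_le_mul_left _ (Nat.pow_le_pow_left h2 _))
              _ = 2 ^ (2 * s + 2 * s ^ 11) := by
                  rw [hB, hy, ← pow_mul, ← pow_mul, ← pow_add]
                  congr 1
                  ring
              _ ≤ 2 ^ (s ^ 12) := by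
                  refine Nat.pow_le_pow_right (by norm_num) ?_
                  have a2 : s ≤ s ^ 11 := by
                    calc s = s ^ 1 := (pow_one s).symm
                      _ ≤ s ^ 11 := Nat.pow_le_pow_right hs1 (by norm_num)
                  calc 2 * s + 2 * s ^ 11 ≤ 2 * s ^ 11 + 2 * s ^ 11 := by gcongr
                    _ = 4 * s ^ 11 := by ring
                    _ ≤ s * s ^ 11 := Nat.mul_le_mul_right _ (by omega)
                    _ = s ^ 12 := by ring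
          omega
        have hzq : z < q := lt_of_le_of_lt hzy hyq
        have hqS : q ∈ Sz z n := (mem_Sz hn0).2 ⟨hqp, hqn, hzq⟩
        have hcof : cof z n ≤ KB s := by
          refine (cof_le hn0 hz1 hBz hsqB homega).trans (le_of_eq ?_)
          rw [hB, hz]
          unfold KB
          rw [← pow_mul, ← pow_mul, ← pow_add]
          congr 1
          ring
        obtain ⟨v, hv1, hv2, hv3, hv4⟩ := exists_valueG hn0 hTm hquot hG hsq hdiv hqS hqσ hcof
        obtain ⟨r1, r2, r3, -⟩ := remove' hn0 hqS hsq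
        have hm0 : 0 < n / q := by
          rcases Nat.eq_zero_or_pos (n / q) with h | h
          · rw [h, zero_mul] at r1
            exact absurd r1 hn0
          · exact h
        refine ⟨n / q, ?_, q, r1, hqp, v, hv1, hv2, hv3, ?_⟩
        · rw [hMs, mem_filter, mem_Ioc]
          refine ⟨⟨hm0, ?_⟩, ?_⟩
          · exact (Nat.div_le_div_right hnN.2).trans (Nat.div_le_div_left hyq.le (by positivity))
          · have h8 : Sz z (n / q) ⊆ n.primeFactors := by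
              refine (Finset.subset_insert q _).trans ?_
              rw [r3]
              exact filter_subset _ _
            exact (card_le_card h8).trans homega
        · exact hv4.trans (sigma_le (by rw [hG]; exact hnN.2)))
      (by
        intro m hm
        rw [hMs, mem_filter] at hm
        exact hm.2)
    have hMc : Ms.card ≤ N / y := by
      calc Ms.card ≤ (Ioc 0 (N / y)).card := card_le_card (filter_subset _ _)
        _ = _ := by rw [Nat.card_Ioc, Nat.sub_zero]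
    calc A₆.card * 2 ^ s ≤ (N / y * (TBf s * ((KB s ^ Nat.log 2 (KB s)) ^ (2 * s + 1) *
          ((KB s + 1) * KB s ^ Nat.log 2 (KB s)) ^ Nat.log 2 (KB s)) * 2 ^ s)) * 2 ^ s := by
          refine Nat.mul_le_mul_right _ (hcount.trans (Nat.mul_le_mul hMc ?_))
          exact Nat.mul_le_mul_left _ hlogV
      _ = N / y * (TBf s * ((KB s ^ Nat.log 2 (KB s)) ^ (2 * s + 1) *
          ((KB s + 1) * KB s ^ Nat.log 2 (KB s)) ^ Nat.log 2 (KB s)) * 2 ^ s * 2 ^ s) := by ring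
      _ ≤ N / y * y := Nat.mul_le_mul_left _ (sizeG hs182)
      _ ≤ N := Nat.div_mul_le_self _ _
  calc A.card * 2 ^ s ≤ (A₂.card + A₃.card + A₅.card + A₆.card) * 2 ^ s := Nat.mul_le_mul_right _ hcov
    _ = A₂.card * 2 ^ s + A₃.card * 2 ^ s + A₅.card * 2 ^ s + A₆.card * 2 ^ s := by ring
    _ ≤ 4 * N := by omega

end Pool.Agent.Helper72.LGP
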