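import Pool.Agent.Helper72.LG.Sum

/-!
# Normal subgroups that peel off
-/

set_option autoImplicit false

namespace Pool.Agent.Helper72.LGP

open Subgroup Finset Pool.Agent.Helper72.LG

variable {G : Type*} [Group G] [Finite G]

/-- `N ↦ N ⊔ P` is a bijection from the normal subgroups without `P` onto the normal subgroups
between `P` and `B` -/
structure Peel (P B : Subgroup G) : Prop where
  normal : P.Normal
  self_le : P ≤ B
  le_of_not_le : ∀ N : Subgroup G, N.Normal → ¬ P ≤ N → N ≤ B
  card_sup : ∀ N : Subgroup G, N.Normal → ¬ P ≤ N →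
    Nat.card (N ⊔ P : Subgroup G) = Nat.card N * Nat.card P
  inj : ∀ N N' : Subgroup G, N.Normal → N'.Normal → ¬ P ≤ N → ¬ P ≤ N' → N ⊔ P = N' ⊔ P → N = N'
  surj : ∀ H : Subgroup G, H.Normal → P ≤ H → H ≤ B → ∃ N : Subgroup G, N.Normal ∧ ¬ P ≤ N ∧ N ⊔ P = H

lemma peel_of_lone {P : Subgroup G} {p : ℕ} (h : Lone P p) : Peel P (centralizer (P : Set G)) where
  normal := h.normal
  self_le := h.self_le
  le_of_not_le := fun _ hn hN => h.le_centralizer hn hN
  card_sup := fun _ _ hN => by rw [h.card_sup hN, h.card]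
  inj := fun _ _ hn _ hN hN' he => h.unique hn hN hN' he
  surj := fun _ hn hP hH => h.exists hn hP hH

/-- a nonabelian minimal normal subgroup -/
structure NMin (M : Subgroup G) : Prop where
  normal : M.Normal
  min : ∀ N : Subgroup G, N.Normal → N < M → N = ⊥
  nonab : ¬ M ≤ centralizer (M : Set G)

omit [Finite G] in
lemma NMin.inf_eq_bot {M : Subgroup G} (h : NMin M) {N : Subgroup G} (hn : N.Normal)
    (hN : ¬ M ≤ N) : N ⊓ M = ⊥ := by
  have := h.normal
  refine h.min _ inferInstance (lt_of_le_of_ne inf_le_right fun he => hN ?_)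
  rw [← he]
  exact inf_le_left

omit [Finite G] in
lemma NMin.le_centralizer {M : Subgroup G} (h : NMin M) {N : Subgroup G} (hn : N.Normal)
    (hN : ¬ M ≤ N) : N ≤ centralizer (M : Set G) := by
  intro x hx
  rw [mem_centralizer_iff]
  intro y hy
  exact (commute_of_normal_of_disjoint M N h.normal hn
    ((disjoint_iff.2 (h.inf_eq_bot hn hN)).symm) y x hy hx)

omit [Finite G] in
lemma NMin.not_le_centralizer {M : Subgroup G} (h : NMin M) : ¬ M ≤ centralizer (M : Set G) := h.nonab

omit [Finite G] in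
lemma NMin.centralizer_inf {M : Subgroup G} (h : NMin M) : centralizer (M : Set G) ⊓ M = ⊥ := by
  have := h.normal
  exact h.inf_eq_bot inferInstance h.nonab

omit [Finite G] in
/-- a nonabelian minimal normal subgroup below a join of normal subgroups is below one of them -/
lemma NMin.le_or_le {M : Subgroup G} (h : NMin M) {N Q : Subgroup G} (hn : N.Normal) (hq : Q.Normal)
    (hle : M ≤ N ⊔ Q) : M ≤ N ∨ M ≤ Q := by
  by_contra hcon
  push Not at hcon
  exact h.nonab (hle.trans (sup_le (h.le_centralizer hn hcon.1) (h.le_centralizer hq hcon.2)))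

omit [Finite G] in
lemma card_sup_of_inf {N M : Subgroup G} (hM : M.Normal) (h : N ⊓ M = ⊥) :
    Nat.card (N ⊔ M : Subgroup G) = Nat.card N * Nat.card M := by
  have h1 : M.relIndex (N ⊔ M) = M.relIndex N := Subgroup.relIndex_sup_right N M
  have h2 : Nat.card M * M.relIndex (N ⊔ M) = Nat.card (N ⊔ M : Subgroup G) := by
    have h4 := Subgroup.relIndex_mul_relIndex ⊥ M (N ⊔ M) bot_le le_sup_right
    rwa [Subgroup.relIndex_bot_left, Subgroup.relIndex_bot_left] at h4
  have h3 : M.relIndex N = Nat.card N := by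
    rw [← Subgroup.inf_relIndex_right, inf_comm, h, Subgroup.relIndex_bot_left]
  rw [← h2, h1, h3, mul_comm]

omit [Finite G] in
lemma NMin.inf_sup {M : Subgroup G} (h : NMin M) {N : Subgroup G} (hn : N.Normal) (hN : ¬ M ≤ N) :
    (N ⊔ M) ⊓ centralizer (M : Set G) = N := by
  have := h.normal
  apply le_antisymm
  · intro x hx
    obtain ⟨hx1, hx2⟩ := Subgroup.mem_inf.1 hx
    rw [Subgroup.mem_sup_of_normal_right] at hx1
    obtain ⟨y, hy, z, hz, rfl⟩ := hx1
    have h1 : y ∈ centralizer (M : Set G) := h.le_centralizer hn hN hy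
    have h2 : z ∈ centralizer (M : Set G) := by
      have := (centralizer (M : Set G)).mul_mem ((centralizer (M : Set G)).inv_mem h1) hx2
      rwa [inv_mul_cancel_left] at this
    have h3 : z ∈ centralizer (M : Set G) ⊓ M := ⟨h2, hz⟩
    rw [h.centralizer_inf, Subgroup.mem_bot] at h3
    rw [h3, mul_one]
    exact hy
  · exact le_inf le_sup_left (h.le_centralizer hn hN)

omit [Finite G] in
lemma peel_of_nmin {M : Subgroup G} (h : NMin M) : Peel M (M ⊔ centralizer (M : Set G)) where
  normal := h.normal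
  self_le := le_sup_left
  le_of_not_le := fun _ hn hN => (h.le_centralizer hn hN).trans le_sup_right
  card_sup := fun _ hn hN => card_sup_of_inf h.normal (h.inf_eq_bot hn hN)
  inj := fun _ _ hn hn' hN hN' he => by
    rw [← h.inf_sup hn hN, he, h.inf_sup hn' hN']
  surj := fun H hn hM hH => by
    have := h.normal
    refine ⟨H ⊓ centralizer (M : Set G), inferInstance, fun hle => h.nonab (hle.trans inf_le_right), ?_⟩
    apply le_antisymm
    · exact sup_le inf_le_left hM
    · intro x hx
      have hx' := hH hx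
      rw [sup_comm, Subgroup.mem_sup_of_normal_right] at hx'
      obtain ⟨c, hc, y, hy, rfl⟩ := hx'
      have hc' : c ∈ H := by
        have := H.mul_mem hx (H.inv_mem (hM hy))
        rwa [mul_inv_cancel_right] at this
      exact Subgroup.mul_mem_sup ⟨hc', hc⟩ hy

variable {ι : Type*} [DecidableEq ι]

/-- a compatible family -/
structure Fam (I : Finset ι) (P B : ι → Subgroup G) : Prop where
  peel : ∀ i ∈ I, Peel (P i) (B i)
  le_of_sup : ∀ i ∈ I, ∀ j ∈ I, i ≠ j → ∀ N : Subgroup G, N.Normal → P i ≤ N ⊔ P j → P i ≤ N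
  le : ∀ i ∈ I, ∀ j ∈ I, i ≠ j → P j ≤ B i

omit [Finite G] [DecidableEq ι] in
lemma Fam.subset {I J : Finset ι} {P B : ι → Subgroup G} (h : Fam J P B) (hIJ : I ⊆ J) : Fam I P B where
  peel := fun i hi => h.peel i (hIJ hi)
  le_of_sup := fun i hi j hj => h.le_of_sup i (hIJ hi) j (hIJ hj)
  le := fun i hi j hj => h.le i (hIJ hi) j (hIJ hj)

open scoped Classical in
/-- the normal subgroups above all the given ones -/
noncomputable def aboveF (I : Finset ι) (P : ι → Subgroup G) : Finset (Subgroup G) :=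
  (nsg G).filter (fun H => ∀ i ∈ I, P i ≤ H)

omit [DecidableEq ι] in
lemma mem_aboveF {I : Finset ι} {P : ι → Subgroup G} {H : Subgroup G} :
    H ∈ aboveF I P ↔ H.Normal ∧ ∀ i ∈ I, P i ≤ H := by
  simp [aboveF, mem_nsg]

open scoped Classical in
/-- the weight -/
noncomputable def wtF (I : Finset ι) (P B : ι → Subgroup G) (H : Subgroup G) : ℝ :=
  ∏ i ∈ I, if H ≤ B i then 1 + 1 / (Nat.card (P i) : ℝ) else 1

/-- fibres of `N ↦ N ⊔ P` on the normal subgroups without `P` -/
lemma Peel.sum_not_le {P B : Subgroup G} (h : Peel P B) (f : Subgroup G → ℝ)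
    (S S' : Finset (Subgroup G)) (hS : ∀ N, N ∈ S ↔ N.Normal ∧ ¬ P ≤ N)
    (hS' : ∀ H, H ∈ S' ↔ H.Normal ∧ P ≤ H ∧ H ≤ B)
    (hf : ∀ N : Subgroup G, N.Normal → f (N ⊔ P) = f N) :
    ∑ N ∈ S, f N * Nat.card N = ∑ H ∈ S', f H * Nat.card H * (1 / (Nat.card P : ℝ)) := by
  have hPn := h.normal
  refine Finset.sum_bij (fun N _ => N ⊔ P) ?_ ?_ ?_ ?_
  · intro N hN
    rw [hS] at hN
    rw [hS']
    have := hN.1
    exact ⟨inferInstance, le_sup_right, sup_le (h.le_of_not_le N hN.1 hN.2) h.self_le⟩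
  · intro N hN N' hN' he
    rw [hS] at hN hN'
    exact h.inj N N' hN.1 hN'.1 hN.2 hN'.2 he
  · intro H hH
    rw [hS'] at hH
    obtain ⟨N, h1, h2, h3⟩ := h.surj H hH.1 hH.2.1 hH.2.2
    exact ⟨N, (hS N).2 ⟨h1, h2⟩, h3⟩
  · intro N hN
    rw [hS] at hN
    have hp : (Nat.card P : ℝ) ≠ 0 := by exact_mod_cast Nat.card_pos.ne'
    rw [hf N hN.1, h.card_sup N hN.1 hN.2]
    push_cast
    field_simp

lemma sum_insertF {I : Finset ι} {q : ι} (hqI : q ∉ I) {P B : ι → Subgroup G}
    (hP : Fam (insert q I) P B) :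
    ∑ H ∈ aboveF I P, wtF I P B H * Nat.card H =
      ∑ H ∈ aboveF (insert q I) P, wtF (insert q I) P B H * Nat.card H := by
  classical
  have hq := hP.peel q (mem_insert_self q I)
  have hne : ∀ p ∈ I, p ≠ q := fun p hp h => hqI (h ▸ hp)
  set f : Subgroup G → ℝ := fun H => if ∀ p ∈ I, P p ≤ H then wtF I P B H else 0 with hf
  have hfs : ∀ N : Subgroup G, N.Normal → f (N ⊔ P q) = f N := by
    intro N hN
    have h1 : (∀ p ∈ I, P p ≤ N ⊔ P q) ↔ ∀ p ∈ I, P p ≤ N := by
      constructor
      · intro h p hp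
        exact hP.le_of_sup p (mem_insert_of_mem hp) q (mem_insert_self q I) (hne p hp) N hN (h p hp)
      · intro h p hp
        exact (h p hp).trans le_sup_left
    have h2 : wtF I P B (N ⊔ P q) = wtF I P B N := by
      unfold wtF
      refine prod_congr rfl fun p hp => ?_
      have h3 : N ⊔ P q ≤ B p ↔ N ≤ B p :=
        ⟨fun h => le_sup_left.trans h, fun h =>
          sup_le h (hP.le p (mem_insert_of_mem hp) q (mem_insert_self q I) (hne p hp))⟩
      simp only [h3]
    simp only [hf, h1, h2]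
  have hsplit := sum_filter_add_sum_filter_not (aboveF I P) (fun H => P q ≤ H)
    (fun H => wtF I P B H * (Nat.card H : ℝ))
  rw [← hsplit]
  have h1 : (aboveF I P).filter (fun H => P q ≤ H) = aboveF (insert q I) P := by
    ext H
    rw [mem_filter, mem_aboveF, mem_aboveF, forall_mem_insert]
    tauto
  have h2 := hq.sum_not_le f ((nsg G).filter (fun N => ¬ P q ≤ N))
    ((nsg G).filter (fun H => P q ≤ H ∧ H ≤ B q))
    (fun N => by rw [mem_filter, mem_nsg]) (fun H => by rw [mem_filter, mem_nsg]) hfs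
  have h3 : ∑ H ∈ (aboveF I P).filter (fun H => ¬ P q ≤ H), wtF I P B H * (Nat.card H : ℝ) =
      ∑ N ∈ (nsg G).filter (fun N => ¬ P q ≤ N), f N * Nat.card N := by
    have h4 : (aboveF I P).filter (fun H => ¬ P q ≤ H) =
        ((nsg G).filter (fun N => ¬ P q ≤ N)).filter (fun N => ∀ p ∈ I, P p ≤ N) := by
      ext H
      rw [mem_filter, mem_aboveF, mem_filter, mem_filter, mem_nsg]
      tauto
    rw [h4, sum_filter]
    refine sum_congr rfl fun N _ => ?_
    simp only [hf]
    split_ifs <;> simp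
  have h5 : ∑ H ∈ (nsg G).filter (fun H => P q ≤ H ∧ H ≤ B q),
      f H * Nat.card H * (1 / (Nat.card (P q) : ℝ)) =
      ∑ H ∈ aboveF (insert q I) P,
        if H ≤ B q then wtF I P B H * Nat.card H * (1 / (Nat.card (P q) : ℝ)) else 0 := by
    have h6 : (nsg G).filter (fun H => P q ≤ H ∧ H ≤ B q) =
        ((nsg G).filter (fun H => P q ≤ H)).filter (fun H => H ≤ B q) := by
      rw [filter_filter]
    have h7 : aboveF (insert q I) P = ((nsg G).filter (fun H => P q ≤ H)).filter (fun H => ∀ p ∈ I, P p ≤ H) := by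
      ext H
      rw [mem_aboveF, forall_mem_insert, mem_filter, mem_filter, mem_nsg]
      tauto
    rw [h6, h7, sum_filter, sum_filter (s := (nsg G).filter (fun H => P q ≤ H))]
    refine sum_congr rfl fun H _ => ?_
    simp only [hf]
    split_ifs <;> simp
  rw [h1, h3, h2, h5, ← sum_add_distrib]
  refine sum_congr rfl fun H _ => ?_
  have h8 : wtF (insert q I) P B H =
      (if H ≤ B q then 1 + 1 / (Nat.card (P q) : ℝ) else 1) * wtF I P B H := by
    unfold wtF
    rw [prod_insert hqI]
  rw [h8]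
  split_ifs <;> ring

/-- the sum of the orders of the normal subgroups -/
lemma sum_nsgF (I : Finset ι) {P B : ι → Subgroup G} (hP : Fam I P B) :
    ∑ H ∈ nsg G, (Nat.card H : ℝ) = ∑ H ∈ aboveF I P, wtF I P B H * Nat.card H := by
  classical
  induction I using Finset.induction_on with
  | empty =>
    have h1 : aboveF (∅ : Finset ι) P = nsg G := by
      ext H
      rw [mem_aboveF, mem_nsg]
      simp
    rw [h1]
    refine sum_congr rfl fun H _ => ?_
    simp [wtF]
  | insert q I hq ih =>
    rw [ih (hP.subset (subset_insert q I)), sum_insertF hq hP]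

end Pool.Agent.Helper72.LGP
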