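import Pool.Agent.Helper72.LGP.Count
import Pool.Agent.Helper72.LGS.Typ

/-!
# The typical numbers, general form
-/

set_option autoImplicit false

namespace Pool.Agent.Helper72.LGP

open Subgroup Finset Pool.Agent.Helper72.LG Pool.Agent.Helper72.LGS

section

variable {G : Type*} [Group G] [Finite G]

omit [Finite G] in
lemma NMin.ne_bot {M : Subgroup G} (h : NMin M) : M ≠ ⊥ := by
  rintro rfl
  exact h.nonab bot_le

omit [Finite G] in
lemma NMin.eq_of_le {M N : Subgroup G} (h : NMin M) (hN : N.Normal) (hne : N ≠ ⊥) (hle : N ≤ M) :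
    N = M := by
  by_contra h1
  exact hne (h.min N hN (lt_of_le_of_ne hle h1))

lemma Lone.not_le_nmin {P M : Subgroup G} {p : ℕ} (h : Lone P p) (hM : NMin M) : ¬ P ≤ M := by
  intro hle
  have hne : P ≠ ⊥ := by
    rintro rfl
    have := h.card
    rw [Subgroup.card_bot] at this
    exact h.prime.one_lt.ne this
  have h1 := hM.eq_of_le h.normal hne hle
  apply hM.nonab
  rw [← h1]
  exact h.self_le

omit [Finite G] in
lemma NMin.not_le_lone {P M : Subgroup G} {p : ℕ} (h : Lone P p) (hM : NMin M) : ¬ M ≤ P := by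
  intro hle
  apply hM.nonab
  refine (hle.trans h.self_le).trans ?_
  exact Subgroup.centralizer_le hle

lemma fam {S : Finset ℕ} {P : ℕ → Subgroup G} (hP : ∀ p ∈ S, Lone (P p) p)
    {T : Finset (Subgroup G)} (hT : ∀ M ∈ T, NMin M) :
    Fam (S.disjSum T) (Sum.elim P id)
      (Sum.elim (fun p => centralizer (P p : Set G)) (fun M => M ⊔ centralizer (M : Set G))) where
  peel := by
    rintro (p | M) hi
    · rw [inl_mem_disjSum] at hi
      exact peel_of_lone (hP p hi)
    · rw [inr_mem_disjSum] at hi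
      exact peel_of_nmin (hT M hi)
  le_of_sup := by
    rintro (p | M) hi (q | M') hj hij N hN hle
    · rw [inl_mem_disjSum] at hi hj
      exact ((hP p hi).le_sup_iff (hP q hj) (fun e => hij (by rw [e])) N).1 hle
    · rw [inl_mem_disjSum] at hi
      rw [inr_mem_disjSum] at hj
      simp only [Sum.elim_inl, Sum.elim_inr, id] at hle ⊢
      by_cases h : M' ≤ N
      · rwa [sup_eq_left.2 h] at hle
      · rw [(hP p hi).le_iff, card_sup_of_inf (hT M' hj).normal ((hT M' hj).inf_eq_bot hN h),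
          Nat.Prime.dvd_mul (hP p hi).prime] at hle
        rcases hle with h1 | h1
        · exact ((hP p hi).le_iff N).2 h1
        · exact absurd (((hP p hi).le_iff M').2 h1) (Lone.not_le_nmin (hP p hi) (hT M' hj))
    · rw [inr_mem_disjSum] at hi
      rw [inl_mem_disjSum] at hj
      simp only [Sum.elim_inl, Sum.elim_inr, id] at hle ⊢
      rcases (hT M hi).le_or_le hN (hP q hj).normal hle with h | h
      · exact h
      · exact absurd h (NMin.not_le_lone (hP q hj) (hT M hi))
    · rw [inr_mem_disjSum] at hi hj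
      simp only [Sum.elim_inr, id] at hle ⊢
      rcases (hT M hi).le_or_le hN (hT M' hj).normal hle with h | h
      · exact h
      · exact absurd ((hT M' hj).eq_of_le (hT M hi).normal (hT M hi).ne_bot h)
          (fun e => hij (by rw [e]))
  le := by
    rintro (p | M) hi (q | M') hj hij
    · rw [inl_mem_disjSum] at hi hj
      exact (hP p hi).le_centralizer (hP q hj).normal
        ((hP p hi).not_le (hP q hj) (fun e => hij (by rw [e])))
    · rw [inl_mem_disjSum] at hi
      rw [inr_mem_disjSum] at hj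
      exact (hP p hi).le_centralizer (hT M' hj).normal (Lone.not_le_nmin (hP p hi) (hT M' hj))
    · rw [inr_mem_disjSum] at hi
      rw [inl_mem_disjSum] at hj
      exact ((hT M hi).le_centralizer (hP q hj).normal
        (NMin.not_le_lone (hP q hj) (hT M hi))).trans le_sup_right
    · rw [inr_mem_disjSum] at hi hj
      refine ((hT M hi).le_centralizer (hT M' hj).normal fun h => ?_).trans le_sup_right
      exact absurd ((hT M' hj).eq_of_le (hT M hi).normal (hT M hi).ne_bot h)
        (fun e => hij (by rw [e]))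

end

/-- the value of a typical number at a prime dividing the sum -/
theorem exists_valueG {M n z q Kb : ℕ} (hn : n ≠ 0) {G : Type} [Group G] [Finite G]
    {T : Finset (Subgroup G)} (hT : ∀ M ∈ T, NMin M)
    (hquot : ∀ (D : Subgroup G) (_ : D.Normal), (∀ M ∈ T, M ≤ D) → Ser M (G ⧸ D))
    (hG : Nat.card G = n) (hsq : ∀ p, z < p → p.Prime → ¬ p ^ 2 ∣ n)
    (hdiv : ∀ p, z < p → p.Prime → p ∣ n → ∀ c, c ∣ n → c ≡ 1 [MOD p] → c = 1)
    (hq : q ∈ Sz z n) (hqσ : q ∣ ∑ H ∈ nsg G, Nat.card H) (hcof : cof z n ≤ Kb) :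
    ∃ v ∈ VSG M Kb (Nat.log 2 Kb) (Sz z (n / q)), v ≠ 0 ∧ q ∣ v ∧ v ≤ ∑ H ∈ nsg G, Nat.card H := by
  classical
  obtain ⟨h1, h2, h3, -⟩ := remove' hn hq hsq
  have hex : ∀ p : ℕ, ∃ P : Subgroup G, p ∈ Sz z n → Lone P p := by
    intro p
    by_cases hp : p ∈ Sz z n
    · have hp' := (mem_Sz hn).1 hp
      obtain ⟨P, hP⟩ := exists_lone (G := G) hp'.1 (by rw [hG]; exact hp'.2.1)
        (by rw [hG]; exact hsq p hp'.2.2 hp'.1) (by
          rw [hG]
          exact hdiv p hp'.2.2 hp'.1 hp'.2.1)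
      exact ⟨P, fun _ => hP⟩
    · exact ⟨⊥, fun h => absurd h hp⟩
  choose P hP using hex
  have hF := fam hP hT
  set P' : ℕ ⊕ Subgroup G → Subgroup G := Sum.elim P id with hP'
  set B' : ℕ ⊕ Subgroup G → Subgroup G :=
    Sum.elim (fun p => centralizer (P p : Set G)) (fun M => M ⊔ centralizer (M : Set G)) with hB'
  set I := (Sz z n).disjSum T with hI
  set D : Subgroup G := I.sup P' with hD
  obtain ⟨hDn, hDc⟩ := card_sup_fam hF
  have hDc' : Nat.card D = (∏ p ∈ Sz z n, p) * ∏ M ∈ T, Nat.card M := by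
    rw [hDc, hI, prod_disjSum]
    congr 1
    exact prod_congr rfl fun p hp => (hP p hp).card
  have hX : Nat.card (G ⧸ D) * ∏ M ∈ T, Nat.card M = cof z n := by
    have e3 := prod_Sz_pos z hn
    have e4 : (Nat.card (G ⧸ D) * ∏ M ∈ T, Nat.card M) * ∏ p ∈ Sz z n, p =
        cof z n * ∏ p ∈ Sz z n, p := by
      calc (Nat.card (G ⧸ D) * ∏ M ∈ T, Nat.card M) * ∏ p ∈ Sz z n, p =
          Nat.card (G ⧸ D) * Nat.card D := by
            rw [hDc']
            ring
        _ = n := by
            rw [← hG]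
            exact (Subgroup.card_eq_card_quotient_mul_card_subgroup D).symm
        _ = _ := eq_cof_mul z hn
    exact Nat.eq_of_mul_eq_mul_right e3 e4
  have hcof0 : 0 < cof z n := Nat.pos_of_ne_zero (cof_ne_zero z hn)
  have hXle : Nat.card (G ⧸ D) ≤ Kb :=
    (Nat.le_of_dvd hcof0 (Dvd.intro _ hX)).trans hcof
  have hTdvd : ∏ M ∈ T, Nat.card M ∣ cof z n := Dvd.intro_left _ hX
  have hMle : ∀ M ∈ T, Nat.card M ≤ Kb := fun M hM =>
    (Nat.le_of_dvd hcof0 ((Finset.dvd_prod_of_mem (fun M : Subgroup G => Nat.card M) hM).trans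
      hTdvd)).trans hcof
  have hTcard : T.card ≤ Nat.log 2 Kb := by
    have h5 : 2 ^ T.card ≤ Kb := by
      calc 2 ^ T.card = ∏ _M ∈ T, 2 := by rw [prod_const]
        _ ≤ ∏ M ∈ T, Nat.card M := by
            refine prod_le_prod' fun M hM => ?_
            have h6 : Nat.card M ≠ 1 := fun h => (hT M hM).ne_bot (Subgroup.card_eq_one.1 h)
            have h7 : 0 < Nat.card M := Nat.card_pos
            omega
        _ ≤ Kb := (Nat.le_of_dvd hcof0 hTdvd).trans hcof
    exact Nat.le_log_of_pow_le (by norm_num) h5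
  set K : ℕ → Subgroup (G ⧸ D) := fun p => (B' (Sum.inl p)).map (QuotientGroup.mk' D) with hK
  obtain ⟨m, hm1, hm2⟩ := exists_ms T hTcard
    (fun M => (Nat.card M, (B' (Sum.inr M)).map (QuotientGroup.mk' D))) Kb hMle
  have hσ : ∑ H ∈ nsg G, Nat.card H = VG (G ⧸ D) (Sz z n) K m ⊤ := by
    rw [sigma_eqF hF (D := D) hD]
    unfold VG
    rw [sum_filter]
    refine sum_congr rfl fun H _ => ?_
    rw [if_pos le_top, hI, prod_disjSum, hm2 H, mul_comm (∏ M ∈ T, _)]
    congr 2
    refine prod_congr rfl fun p hp => ?_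
    rw [hP', Sum.elim_inl, (hP p hp).card]
  have hq0 : 0 < q := ((mem_Sz hn).1 hq).1.pos
  have hnq : n / q ≠ 0 := by
    intro h
    rw [h, zero_mul] at h1
    exact hn h1
  refine ⟨VG (G ⧸ D) (Sz z (n / q)) K m (K q), ?_, ?_, ?_, ?_⟩
  · refine ⟨G ⧸ D, inferInstance, inferInstance, K, m, K q, hXle, hquot D hDn fun M hM => ?_, hm1, rfl⟩
    rw [hD]
    exact Finset.le_sup (f := P') (inr_mem_disjSum.2 hM)
  · exact (VG_pos (fun p hp => ((mem_Sz hnq).1 hp).1.pos)).ne'
  · refine dvd_VG h2 ?_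
    rw [h3, ← hσ]
    exact hqσ
  · rw [hσ, ← h3]
    exact VG_le h2 hq0

end Pool.Agent.Helper72.LGP
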