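import Pool.Agent.Helper72.LGP.Peel
import Pool.Agent.Helper72.LGS.Val

/-!
# The value at a prime, general form
-/

set_option autoImplicit false

namespace Pool.Agent.Helper72.LGP

open Subgroup Finset Pool.Agent.Helper72.LG Pool.Agent.Helper72.LGS

/-- the factor of the nonabelian part -/
noncomputable def ms {X : Type*} [Group X] {R : ℕ} (m : Fin R → ℕ × Subgroup X) (H : Subgroup X) : ℕ :=
  open scoped Classical in ∏ i : Fin R, ((m i).1 + if H ≤ (m i).2 then 1 else 0)

open scoped Classical in
/-- the value -/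
noncomputable def VG (X : Type*) [Group X] [Finite X] (S : Finset ℕ) (K : ℕ → Subgroup X) {R : ℕ}
    (m : Fin R → ℕ × Subgroup X) (L : Subgroup X) : ℕ :=
  ∑ H ∈ (nsg X).filter (fun H => H ≤ L),
    Nat.card H * (ms m H * ∏ p ∈ S, (p + if H ≤ K p then 1 else 0))

section

variable {G : Type*} [Group G] [Finite G]

lemma card_sup_fam {ι : Type*} [DecidableEq ι] {I : Finset ι} {P B : ι → Subgroup G}
    (h : Fam I P B) : (I.sup P).Normal ∧ Nat.card (I.sup P : Subgroup G) = ∏ i ∈ I, Nat.card (P i) := by
  classical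
  induction I using Finset.induction_on with
  | empty => simp
  | insert q I hq ih =>
    obtain ⟨h1, h2⟩ := ih (h.subset (subset_insert q I))
    have hQ := h.peel q (mem_insert_self q I)
    have hQn := hQ.normal
    have h3 : ¬ P q ≤ I.sup P := by
      intro hle
      -- the join of the others: remove them one by one
      have key : ∀ J : Finset ι, J ⊆ I → P q ≤ J.sup P → False := by
        intro J
        induction J using Finset.induction_on with
        | empty =>
          intro _ h4
          rw [Finset.sup_empty] at h4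
          obtain ⟨N, hN, hN1, hN2⟩ := hQ.surj (P q) hQn (le_refl _) hQ.self_le
          have h5 : P q = ⊥ := le_bot_iff.1 h4
          exact hN1 (by rw [h5]; exact bot_le)
        | insert j J hj ihJ =>
          intro hJ h4
          rw [Finset.sup_insert, sup_comm] at h4
          have hjI : j ∈ I := hJ (mem_insert_self j J)
          have hJn : (J.sup P).Normal := by
            refine Finset.sup_induction (p := fun H : Subgroup G => H.Normal) ?_ ?_ ?_
            · infer_instance
            · intro a ha b hb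
              infer_instance
            · intro i hi
              exact (h.peel i (mem_insert_of_mem (hJ (mem_insert_of_mem hi)))).normal
          refine ihJ ((subset_insert j J).trans hJ) ?_
          exact h.le_of_sup q (mem_insert_self q I) j (mem_insert_of_mem hjI)
            (fun e => hq (e ▸ hjI)) _ hJn h4
      exact key I (subset_refl _) hle
    rw [Finset.sup_insert, sup_comm]
    refine ⟨inferInstance, ?_⟩
    rw [hQ.card_sup _ h1 h3, h2, prod_insert hq, mul_comm]

/-- the sum over the normal subgroups as a sum over the normal subgroups of the quotient -/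
theorem sigma_eqF {ι : Type*} [DecidableEq ι] {I : Finset ι} {P B : ι → Subgroup G}
    (hP : Fam I P B) {D : Subgroup G} [hDn : D.Normal] (hD : D = I.sup P)
    [∀ (i : ι) (H : Subgroup (G ⧸ D)), Decidable (H ≤ (B i).map (QuotientGroup.mk' D))] :
    ∑ H ∈ nsg G, Nat.card H = ∑ H ∈ nsg (G ⧸ D), Nat.card H *
      ∏ i ∈ I, (Nat.card (P i) + if H ≤ (B i).map (QuotientGroup.mk' D) then 1 else 0) := by
  classical
  have hDc : Nat.card D = ∏ i ∈ I, Nat.card (P i) := by
    rw [hD]
    exact (card_sup_fam hP).2
  have hPD : ∀ i ∈ I, P i ≤ D := fun i hi => by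
    rw [hD]
    exact Finset.le_sup hi
  have hDC : ∀ i ∈ I, D ≤ B i := by
    intro i hi
    rw [hD]
    refine Finset.sup_le fun j hj => ?_
    by_cases hij : i = j
    · rw [← hij]
      exact (hP.peel i hi).self_le
    · exact hP.le i hi j hj hij
  have habove : ∀ H, H ∈ aboveF I P ↔ H.Normal ∧ D ≤ H := by
    intro H
    rw [mem_aboveF]
    refine and_congr_right fun _ => ?_
    constructor
    · intro h
      rw [hD]
      exact Finset.sup_le h
    · intro h i hi
      exact (hPD i hi).trans h
  have h1 : ((∑ H ∈ nsg G, Nat.card H : ℕ) : ℝ) = ((∑ H ∈ nsg (G ⧸ D), Nat.card H *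
      ∏ i ∈ I, (Nat.card (P i) + if H ≤ (B i).map (QuotientGroup.mk' D) then 1 else 0) : ℕ) : ℝ) := by
    push_cast
    rw [sum_nsgF I hP]
    refine Finset.sum_bij (fun H _ => H.map (QuotientGroup.mk' D)) ?_ ?_ ?_ ?_
    · intro H hH
      rw [habove] at hH
      rw [mem_nsg]
      exact hH.1.map _ (QuotientGroup.mk'_surjective D)
    · intro H hH H' hH' heq
      rw [habove] at hH hH'
      have h2 := congrArg (Subgroup.comap (QuotientGroup.mk' D)) heq
      rw [Subgroup.comap_map_eq, Subgroup.comap_map_eq, QuotientGroup.ker_mk', sup_eq_left.2 hH.2,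
        sup_eq_left.2 hH'.2] at h2
      exact h2
    · intro J hJ
      rw [mem_nsg] at hJ
      refine ⟨J.comap (QuotientGroup.mk' D), ?_, ?_⟩
      · rw [habove]
        refine ⟨hJ.comap _, ?_⟩
        have : D = (QuotientGroup.mk' D).ker := (QuotientGroup.ker_mk' D).symm
        conv_lhs => rw [this]
        exact Subgroup.ker_le_comap _ _
      · exact Subgroup.map_comap_eq_self_of_surjective (QuotientGroup.mk'_surjective D) J
    · intro H hH
      rw [habove] at hH
      rw [card_eq_map hH.2, hDc]
      unfold wtF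
      push_cast
      rw [mul_comm, mul_right_comm, ← prod_mul_distrib, mul_comm]
      congr 1
      refine prod_congr rfl fun i hi => ?_
      have hp0 : (Nat.card (P i) : ℝ) ≠ 0 := by exact_mod_cast Nat.card_pos.ne'
      simp only [map_le_iff (hDC i hi)]
      split_ifs
      · field_simp
      · ring
  exact_mod_cast h1

/-- a prime divisor of the sum divides the value -/
theorem dvd_VG {X : Type*} [Group X] [Finite X] {S : Finset ℕ} {q : ℕ} (hq : q ∉ S)
    {K : ℕ → Subgroup X} {R : ℕ} {m : Fin R → ℕ × Subgroup X}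
    (h : q ∣ VG X (insert q S) K m ⊤) : q ∣ VG X S K m (K q) := by
  classical
  have h1 : VG X (insert q S) K m ⊤ = q * (∑ H ∈ nsg X, Nat.card H *
      (ms m H * ∏ p ∈ S, (p + if H ≤ K p then 1 else 0))) + VG X S K m (K q) := by
    unfold VG
    rw [sum_filter, sum_filter, mul_sum, ← sum_add_distrib]
    refine sum_congr rfl fun H _ => ?_
    rw [if_pos le_top, prod_insert hq]
    split_ifs <;> ring
  rw [h1] at h
  exact (Nat.dvd_add_right (Dvd.intro _ rfl)).1 h

theorem VG_pos {X : Type*} [Group X] [Finite X] {S : Finset ℕ} {K : ℕ → Subgroup X} {R : ℕ}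
    {m : Fin R → ℕ × Subgroup X} {L : Subgroup X} (hS : ∀ p ∈ S, 0 < p) : 0 < VG X S K m L := by
  classical
  unfold VG
  refine sum_pos' (fun _ _ => Nat.zero_le _) ⟨⊥, ?_, ?_⟩
  · rw [mem_filter, mem_nsg]
    exact ⟨inferInstance, bot_le⟩
  · refine Nat.mul_pos Nat.card_pos (Nat.mul_pos ?_ (prod_pos fun p hp => ?_))
    · unfold ms
      refine prod_pos fun i _ => ?_
      rw [if_pos bot_le]
      omega
    · have := hS p hp
      omega

theorem VG_le {X : Type*} [Group X] [Finite X] {S : Finset ℕ} {q : ℕ} (hq : q ∉ S) (hq0 : 0 < q)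
    {K : ℕ → Subgroup X} {R : ℕ} {m : Fin R → ℕ × Subgroup X} :
    VG X S K m (K q) ≤ VG X (insert q S) K m ⊤ := by
  classical
  unfold VG
  rw [sum_filter, sum_filter]
  refine sum_le_sum fun H _ => ?_
  rw [if_pos le_top, prod_insert hq]
  split_ifs
  · refine Nat.mul_le_mul_left _ (Nat.mul_le_mul_left _ ?_)
    exact Nat.le_mul_of_pos_left _ (by omega)
  · exact Nat.zero_le _

/-- the value is an invariant -/
theorem VG_congr {X Y : Type*} [Group X] [Finite X] [Group Y] [Finite Y] (φ : X ≃* Y) (S : Finset ℕ)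
    (K : ℕ → Subgroup X) {R : ℕ} (m : Fin R → ℕ × Subgroup X) (L : Subgroup X) :
    VG X S K m L = VG Y S (fun p => (K p).map φ.toMonoidHom)
      (fun i => ((m i).1, (m i).2.map φ.toMonoidHom)) (L.map φ.toMonoidHom) := by
  classical
  unfold VG
  have hinj : Function.Injective φ.toMonoidHom := φ.injective
  have hsurj : Function.Surjective φ.toMonoidHom := φ.surjective
  refine Finset.sum_bij (fun H _ => H.map φ.toMonoidHom) ?_ ?_ ?_ ?_
  · intro H hH
    rw [mem_filter, mem_nsg] at hH ⊢
    exact ⟨hH.1.map _ hsurj, Subgroup.map_mono hH.2⟩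
  · intro H _ H' _ heq
    exact Subgroup.map_injective hinj heq
  · intro J hJ
    rw [mem_filter, mem_nsg] at hJ
    refine ⟨J.comap φ.toMonoidHom, ?_, Subgroup.map_comap_eq_self_of_surjective hsurj J⟩
    rw [mem_filter, mem_nsg]
    refine ⟨hJ.1.comap _, ?_⟩
    rw [← Subgroup.map_le_map_iff_of_injective hinj, Subgroup.map_comap_eq_self_of_surjective hsurj]
    exact hJ.2
  · intro H _
    have h1 : Nat.card (H.map φ.toMonoidHom) = Nat.card H :=
      Nat.card_congr (H.equivMapOfInjective φ.toMonoidHom hinj).toEquiv.symm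
    rw [h1]
    unfold ms
    simp only [Subgroup.map_le_map_iff_of_injective hinj]

lemma VG_restrict {X : Type*} [Group X] [Finite X] (S : Finset ℕ) (K K' : ℕ → Subgroup X) {R : ℕ}
    (m : Fin R → ℕ × Subgroup X) (L : Subgroup X) (h : ∀ p ∈ S, K p = K' p) :
    VG X S K m L = VG X S K' m L := by
  classical
  unfold VG
  refine sum_congr rfl fun H _ => ?_
  congr 2
  exact prod_congr rfl fun p hp => by rw [h p hp]

/-- products over a finset as products over `Fin R` -/
lemma exists_ms {X : Type*} [Group X] {α : Type*} [DecidableEq α] (T : Finset α) {R : ℕ}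
    (hR : T.card ≤ R) (f : α → ℕ × Subgroup X) (b : ℕ) (hb : ∀ a ∈ T, (f a).1 ≤ b) :
    ∃ m : Fin R → ℕ × Subgroup X, (∀ i, (m i).1 ≤ b) ∧ ∀ (H : Subgroup X)
      [∀ a, Decidable (H ≤ (f a).2)], ms m H = ∏ a ∈ T, ((f a).1 + if H ≤ (f a).2 then 1 else 0) := by
  classical
  induction T using Finset.induction_on generalizing R with
  | empty =>
    refine ⟨fun _ => (0, ⊤), fun _ => Nat.zero_le _, fun H _ => ?_⟩
    unfold ms
    simp
  | insert a T ha ih =>
    rw [card_insert_of_notMem ha] at hR
    obtain ⟨R', rfl⟩ : ∃ R', R = R' + 1 := ⟨R - 1, by omega⟩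
    obtain ⟨m, hm1, hm2⟩ := ih (R := R') (by omega) fun c hc => hb c (mem_insert_of_mem hc)
    refine ⟨Fin.cons (f a) m, fun i => ?_, fun H _ => ?_⟩
    · refine Fin.cases ?_ (fun j => ?_) i
      · exact hb a (mem_insert_self a T)
      · exact hm1 j
    · have h1 := hm2 H
      unfold ms at h1 ⊢
      rw [Fin.prod_univ_succ, prod_insert ha, ← h1]
      simp only [Fin.cons_zero, Fin.cons_succ]

end

end Pool.Agent.Helper72.LGP
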